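import Pool.Agent.H28.GS.Targets

/-!
The module `MIS` of the project GS: far from the rationals with denominator dividing `W` a
function which is constant on the cells has small twisted sums.
-/

set_option autoImplicit false

open Finset Filter Topology

namespace Pool.Agent.H79.GS

open Pool.Agent.H31.DP
open Pool.Agent.H28.GS

theorem norm_ee (x : ℝ) : ‖ee x‖ = 1 := by
  unfold ee
  rw [Complex.norm_exp]
  simp

theorem ee_add (x y : ℝ) : ee (x + y) = ee x * ee y := by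
  unfold ee
  rw [← Complex.exp_add]
  congr 1
  push_cast
  ring

theorem ee_int (m : ℤ) : ee (m : ℝ) = 1 := by
  unfold ee
  rw [Complex.exp_eq_one_iff]
  exact ⟨m, by push_cast; ring⟩

theorem ee_nat_mul (i : ℕ) (x : ℝ) : ee (i * x) = ee x ^ i := by
  unfold ee
  rw [← Complex.exp_nat_mul]
  congr 1
  push_cast
  ring

theorem norm_ee_sub_one (x : ℝ) : ‖ee x - 1‖ = 2 * |Real.sin (Real.pi * x)| := by
  have h1 : ee x = Complex.exp (Complex.I * ((2 * Real.pi * x : ℝ) : ℂ)) := by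
    unfold ee
    congr 1
    push_cast
    ring
  rw [h1, Complex.norm_exp_I_mul_ofReal_sub_one, norm_mul, Real.norm_eq_abs, Real.norm_eq_abs,
    abs_of_pos (by norm_num : (0 : ℝ) < 2)]
  congr 2
  ring_nf

/-- The geometric sum. -/
theorem geo (α c : ℝ) (hc : 0 < c) (h : ∀ a : ℤ, c ≤ |α - a|) (k : ℕ) :
    ‖∑ i ∈ Finset.range k, ee (i * α)‖ ≤ 1 / (2 * c) := by
  set β : ℝ := α - round α with hβ
  have h1 : ee α = ee β := by
    have h2 : α = β + ((round α : ℤ) : ℝ) := by rw [hβ]; ring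
    calc ee α = ee (β + ((round α : ℤ) : ℝ)) := by rw [← h2]
      _ = ee β := by rw [ee_add, ee_int, mul_one]
  have hβ1 : |β| ≤ 1 / 2 := abs_sub_round α
  have hβ2 : c ≤ |β| := h (round α)
  have h3 : 4 * c ≤ ‖ee α - 1‖ := by
    rw [h1, norm_ee_sub_one]
    have h4 := Real.mul_abs_le_abs_sin (x := Real.pi * β) (by
      rw [abs_mul, abs_of_pos Real.pi_pos]
      nlinarith [Real.pi_pos])
    rw [abs_mul, abs_of_pos Real.pi_pos] at h4
    have h5 : 2 / Real.pi * (Real.pi * |β|) = 2 * |β| := by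
      field_simp
    rw [h5] at h4
    linarith
  have h4 : ∑ i ∈ Finset.range k, ee (i * α) = ∑ i ∈ Finset.range k, ee α ^ i :=
    Finset.sum_congr rfl (fun i _ => ee_nat_mul i α)
  have h5 : (∑ i ∈ Finset.range k, ee (i * α)) * (ee α - 1) = ee α ^ k - 1 := by
    rw [h4]
    exact geom_sum_mul _ _
  have h6 : ‖∑ i ∈ Finset.range k, ee (i * α)‖ * ‖ee α - 1‖ ≤ 2 := by
    rw [← norm_mul, h5]
    refine (norm_sub_le _ _).trans ?_
    rw [norm_pow, norm_ee, one_pow, norm_one]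
    norm_num
  rw [le_div_iff₀ (by positivity)]
  have h7 : ‖∑ i ∈ Finset.range k, ee (i * α)‖ * (4 * c) ≤ 2 :=
    (mul_le_mul_of_nonneg_left h3 (norm_nonneg _)).trans h6
  linarith

/-- The sum over an interval in a residue class. -/
theorem ap_sum (W : ℕ) (hW : 0 < W) (S : Finset ℤ) (s : ℤ) (hs : ∀ m ∈ S, m % (W : ℤ) = s)
    (hconv : ∀ m ∈ S, ∀ m' ∈ S, ∀ x, m ≤ x → x ≤ m' → x % (W : ℤ) = s → x ∈ S) (θ c : ℝ)
    (hc : 0 < c) (h : ∀ a : ℤ, c ≤ |(W : ℝ) * θ - a|) :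
    ‖∑ m ∈ S, ee ((m : ℝ) * θ)‖ ≤ 1 / (2 * c) := by
  classical
  rcases S.eq_empty_or_nonempty with rfl | hne
  · simp
    positivity
  have hWz : (0 : ℤ) < W := by exact_mod_cast hW
  set m₀ := S.min' hne with hm₀
  set m₁ := S.max' hne with hm₁
  have hm₀S : m₀ ∈ S := S.min'_mem hne
  have hm₁S : m₁ ∈ S := S.max'_mem hne
  have h01 : m₀ ≤ m₁ := S.min'_le _ hm₁S
  set k : ℕ := ((m₁ - m₀) / (W : ℤ)).toNat + 1 with hk
  have hS : S = (Finset.range k).image (fun i : ℕ => m₀ + (W : ℤ) * i) := by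
    ext x
    rw [Finset.mem_image]
    constructor
    · intro hx
      have h1 : m₀ ≤ x := S.min'_le _ hx
      have h2 : x ≤ m₁ := S.le_max' _ hx
      have h3 : (W : ℤ) ∣ x - m₀ := by
        have h4 : x % (W : ℤ) = m₀ % (W : ℤ) := by rw [hs x hx, hs m₀ hm₀S]
        exact Int.dvd_of_emod_eq_zero (by rw [Int.sub_emod, h4, sub_self, Int.zero_emod])
      obtain ⟨t, ht⟩ := h3
      have ht0 : 0 ≤ t := by
        by_contra hcon
        push Not at hcon
        nlinarith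
      obtain ⟨i, rfl⟩ := Int.eq_ofNat_of_zero_le ht0
      refine ⟨i, ?_, by linarith⟩
      rw [Finset.mem_range, hk]
      have h5 : (i : ℤ) ≤ (m₁ - m₀) / (W : ℤ) := by
        rw [Int.le_ediv_iff_mul_le hWz]
        nlinarith
      omega
    · rintro ⟨i, hi, rfl⟩
      rw [Finset.mem_range, hk] at hi
      have h5 : (i : ℤ) ≤ (m₁ - m₀) / (W : ℤ) := by
        have : 0 ≤ (m₁ - m₀) / (W : ℤ) := Int.ediv_nonneg (by omega) hWz.le
        omega
      rw [Int.le_ediv_iff_mul_le hWz] at h5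
      apply hconv m₀ hm₀S m₁ hm₁S
      · have : 0 ≤ (W : ℤ) * (i : ℤ) := by positivity
        linarith
      · linarith
      · rw [Int.add_mul_emod_self_left]
        exact hs m₀ hm₀S
  have hinj : Set.InjOn (fun i : ℕ => m₀ + (W : ℤ) * i) (Finset.range k : Finset ℕ) := by
    intro a _ b _ hab
    simp only at hab
    have h1 : (W : ℤ) * a = W * b := by linarith
    have h2 := Int.eq_of_mul_eq_mul_left hWz.ne' h1
    exact_mod_cast h2
  rw [hS, Finset.sum_image hinj]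
  have h6 : ∑ i ∈ Finset.range k, ee (((m₀ + (W : ℤ) * i : ℤ) : ℝ) * θ) =
      ee ((m₀ : ℝ) * θ) * ∑ i ∈ Finset.range k, ee (i * ((W : ℝ) * θ)) := by
    rw [Finset.mul_sum]
    apply Finset.sum_congr rfl
    intro i _
    rw [← ee_add]
    congr 1
    push_cast
    ring
  rw [h6, norm_mul, norm_ee, one_mul]
  exact geo _ c hc h k

theorem pf_MIS : T_MIS := by
  classical
  intro W J N B φ θ hW hJ hN hB hφ hθ
  have hWz : (0 : ℤ) < W := by exact_mod_cast hW
  have hNz : (0 : ℤ) < N := by exact_mod_cast hN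
  have hWr : (0 : ℝ) < W := by exact_mod_cast hW
  have hNr : (0 : ℝ) < N := by exact_mod_cast hN
  have hmaps : ∀ n ∈ Finset.Icc (1 : ℤ) N, (n % (W : ℤ), (J : ℤ) * n / (N : ℤ)) ∈
      (Finset.Ico (0 : ℤ) W) ×ˢ (Finset.Icc (0 : ℤ) J) := by
    intro n hn
    rw [Finset.mem_Icc] at hn
    rw [Finset.mem_product, Finset.mem_Ico, Finset.mem_Icc]
    refine ⟨⟨Int.emod_nonneg _ hWz.ne', Int.emod_lt_of_pos _ hWz⟩,
      Int.ediv_nonneg (mul_nonneg (by positivity) (by omega)) hNz.le, ?_⟩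
    apply Int.ediv_le_of_le_mul hNz
    exact mul_le_mul_of_nonneg_left hn.2 (by positivity)
  rw [← Finset.sum_fiberwise_of_maps_to hmaps]
  have hone : ∀ z ∈ (Finset.Ico (0 : ℤ) W) ×ˢ (Finset.Icc (0 : ℤ) J),
      ‖∑ n ∈ (Finset.Icc (1 : ℤ) N).filter (fun n => (n % (W : ℤ), (J : ℤ) * n / (N : ℤ)) = z),
        ((st W J N φ n : ℝ) : ℂ) * ee (n * θ)‖ ≤ 1 / (2 * (B * W / N)) := by
    intro z _
    set S := (Finset.Icc (1 : ℤ) N).filter
      (fun n => (n % (W : ℤ), (J : ℤ) * n / (N : ℤ)) = z) with hS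
    have h1 : ∑ n ∈ S, ((st W J N φ n : ℝ) : ℂ) * ee (n * θ) =
        ((φ z.1 z.2 : ℝ) : ℂ) * ∑ n ∈ S, ee (n * θ) := by
      rw [Finset.mul_sum]
      apply Finset.sum_congr rfl
      intro n hn
      rw [hS, Finset.mem_filter] at hn
      unfold st
      rw [← hn.2]
    rw [h1, norm_mul, Complex.norm_real, Real.norm_eq_abs]
    have h2 : ‖∑ n ∈ S, ee (n * θ)‖ ≤ 1 / (2 * (B * W / N)) := by
      apply ap_sum W hW S z.1
      · intro m hm
        rw [hS, Finset.mem_filter] at hm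
        rw [← hm.2]
      · intro m hm m' hm' x hmx hxm hx
        rw [hS, Finset.mem_filter, Finset.mem_Icc] at hm hm' ⊢
        refine ⟨by omega, ?_⟩
        apply Prod.ext
        · exact hx
        · simp only
          have h3 : (J : ℤ) * m / (N : ℤ) = z.2 := by rw [← hm.2]
          have h4 : (J : ℤ) * m' / (N : ℤ) = z.2 := by rw [← hm'.2]
          have h5 : (J : ℤ) * m / (N : ℤ) ≤ (J : ℤ) * x / (N : ℤ) :=
            Int.ediv_le_ediv hNz (mul_le_mul_of_nonneg_left hmx (by positivity))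
          have h6 : (J : ℤ) * x / (N : ℤ) ≤ (J : ℤ) * m' / (N : ℤ) :=
            Int.ediv_le_ediv hNz (mul_le_mul_of_nonneg_left hxm (by positivity))
          omega
      · positivity
      · exact hθ
    calc |φ z.1 z.2| * ‖∑ n ∈ S, ee (n * θ)‖ ≤ 1 * ‖∑ n ∈ S, ee (n * θ)‖ :=
          mul_le_mul_of_nonneg_right (hφ _ _) (norm_nonneg _)
      _ = ‖∑ n ∈ S, ee (n * θ)‖ := one_mul _
      _ ≤ _ := h2
  refine (norm_sum_le _ _).trans ((Finset.sum_le_sum hone).trans (le_of_eq ?_))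
  rw [Finset.sum_const, Finset.card_product, Int.card_Ico, Int.card_Icc, nsmul_eq_mul]
  have h7 : ((W : ℤ) - 0).toNat = W := by omega
  have h8 : ((J : ℤ) + 1 - 0).toNat = J + 1 := by omega
  rw [h7, h8]
  push_cast
  field_simp

end Pool.Agent.H79.GS
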