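import Pool.Agent.H28.GS.Targets
import Pool.Agent.H91.LF.Basic

/-!
The module `S2S` of the project GS: the structure theorem for the norm of order two.
-/

set_option autoImplicit false

open Finset Filter Topology

namespace Pool.Agent.H79.GS

open Pool.Agent.H31.DP
open Pool.Agent.H31.GUF
open Pool.Agent.H28.GS

private theorem norm_ee' (x : ℝ) : ‖ee x‖ = 1 := by
  unfold ee
  rw [Complex.norm_exp]
  simp

theorem abs_FF_le {l : ℕ} (h : Fin l → ℕ) (p : ℕ) (n : ℤ) : |FF h p n| ≤ 1 := by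
  unfold FF
  rw [Finset.abs_prod]
  exact Finset.prod_le_one (fun _ _ => abs_nonneg _) fun _ _ => Pool.Agent.H91.LF.abs_lz_le _

theorem sum_Icc_cast (N : ℕ) (F : ℤ → ℂ) :
    ∑ n ∈ Finset.Icc (1 : ℤ) N, F n = ∑ n ∈ Finset.Icc 1 N, F ((n : ℕ) : ℤ) := by
  have h1 : Finset.Icc (1 : ℤ) N = (Finset.Icc 1 N).image (fun n : ℕ => (n : ℤ)) := by
    ext x
    rw [Finset.mem_image, Finset.mem_Icc]
    constructor
    · rintro ⟨h1, h2⟩
      obtain ⟨n, rfl⟩ := Int.eq_ofNat_of_zero_le (by omega : 0 ≤ x)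
      exact ⟨n, Finset.mem_Icc.2 ⟨by omega, by omega⟩, rfl⟩
    · rintro ⟨n, hn, rfl⟩
      rw [Finset.mem_Icc] at hn
      constructor <;> omega
  rw [h1, Finset.sum_image (fun a _ b _ hab => by exact_mod_cast hab)]

/-- The twisted sum on the integers. -/
noncomputable def tw (N : ℕ) (g : ℤ → ℝ) (θ : ℝ) : ℂ :=
  ∑ n ∈ Finset.Icc (1 : ℤ) N, ((g n : ℝ) : ℂ) * ee (n * θ)

theorem tw_FF {l : ℕ} (h : Fin l → ℕ) (N : ℕ) (θ : ℝ) : tw N (FF h 1) θ = Sg h N θ := by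
  unfold tw Sg
  rw [sum_Icc_cast]
  apply Finset.sum_congr rfl
  intro n _
  push_cast
  rfl

theorem tw_sub (N : ℕ) (f g : ℤ → ℝ) (θ : ℝ) :
    tw N (fun n => f n - g n) θ = tw N f θ - tw N g θ := by
  unfold tw
  rw [← Finset.sum_sub_distrib]
  apply Finset.sum_congr rfl
  intro n _
  push_cast
  ring

theorem tw_half (N : ℕ) (f : ℤ → ℝ) (θ : ℝ) :
    tw N (fun n => f n / 2) θ = tw N f θ / 2 := by
  unfold tw
  rw [Finset.sum_div]
  apply Finset.sum_congr rfl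
  intro n _
  push_cast
  ring

theorem tw_le (N : ℕ) (f : ℤ → ℝ) (θ : ℝ) :
    ‖tw N f θ‖ ≤ ∑ n ∈ Finset.Icc (1 : ℤ) N, |f n| := by
  unfold tw
  refine (norm_sum_le _ _).trans (le_of_eq ?_)
  apply Finset.sum_congr rfl
  intro n _
  rw [norm_mul, norm_ee', mul_one, Complex.norm_real, Real.norm_eq_abs]

/-- The bound for the twisted sums. -/
theorem s2s_tw (hEN : T_EN) (hMA : T_MAS) (hMI : T_MIS) {l : ℕ} (h : Fin l → ℕ)
    (ε : ℝ) (hε0 : 0 < ε) (W Kf N Ji Jn : ℕ) (hW : 0 < W)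
    (hdiv : ∀ q, 1 ≤ q → q ≤ Kf → q ∣ W) (hN : 0 < N) (hJi : 0 < Ji) (hJn : 0 < Jn)
    (h1 : 2 * Real.pi * Kf * (1 / (Ji : ℝ) + 1 / N) ≤ ε)
    (h2 : 4 * Real.pi * (8 * ((Ji : ℝ) + 1) / ε) * (1 / (Jn : ℝ) + 1 / N) ≤ ε / 4)
    (hT1 : ∀ θ : ℝ, Minor Kf N θ → ‖Sg h N θ‖ ≤ ε / 8 * N)
    (hen : ∑ n ∈ Finset.Icc (1 : ℤ) N, (ce W Jn N (FF h 1) n - ce W Ji N (FF h 1) n) ^ 2 ≤
      (ε / 8) ^ 2 * N) (θ : ℝ) :
    ‖tw N (gs h (ce W Ji N (FF h 1))) θ‖ ≤ ε * N := by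
  have hNr : (0 : ℝ) < N := by exact_mod_cast hN
  have hWr : (0 : ℝ) < W := by exact_mod_cast hW
  set f : ℤ → ℝ := FF h 1 with hf
  have hfb : ∀ n, |f n| ≤ 1 := fun n => abs_FF_le h 1 n
  set Ei : ℤ → ℝ := ce W Ji N f with hEi
  set En : ℤ → ℝ := ce W Jn N f with hEn
  obtain ⟨hEib, ⟨φ, hφ, hst⟩, hcell, _⟩ := hEN W Ji N f hW hJi hN hfb
  obtain ⟨hEnb, _, hcelln, _⟩ := hEN W Jn N f hW hJn hN hfb
  have hgs : gs h Ei = fun n => (f n - Ei n) / 2 := by
    funext n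
    rfl
  have hgb : ∀ (E : ℤ → ℝ), (∀ n, |E n| ≤ 1) → ∀ n, |(f n - E n) / 2| ≤ 1 := by
    intro E hE n
    rw [abs_div, abs_of_pos (by norm_num : (0 : ℝ) < 2), div_le_one (by norm_num)]
    have h3 := abs_sub (f n) (E n)
    have h4 := hfb n
    have h5 := hE n
    linarith
  have hcs : ∀ (J' : ℕ) (E : ℤ → ℝ), (∀ n, ∑ m ∈ cell W J' N n, (f m - E m) = 0) →
      ∀ n, ∑ m ∈ cell W J' N n, (f m - E m) / 2 = 0 := by
    intro J' E hE n
    rw [← Finset.sum_div, hE n, zero_div]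
  rw [hgs]
  by_cases hmin : Minor Kf N θ
  · -- minor arcs
    have hS := hT1 θ hmin
    rw [← tw_FF] at hS
    have hkey : ‖tw N Ei θ‖ ≤ ε / 2 * N := by
      by_cases hb : ∀ a : ℤ, 8 * ((Ji : ℝ) + 1) / ε * W / N ≤ |(W : ℝ) * θ - a|
      · have h3 := hMI W Ji N (8 * ((Ji : ℝ) + 1) / ε) φ θ hW hJi hN (by positivity) hφ hb
        have h4 : tw N Ei θ = ∑ n ∈ Finset.Icc (1 : ℤ) N,
            ((st W Ji N φ n : ℝ) : ℂ) * ee (n * θ) := by
          unfold tw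
          apply Finset.sum_congr rfl
          intro n _
          rw [hEi, hst n]
        rw [h4]
        refine h3.trans ?_
        have h5 : ((Ji : ℝ) + 1) / (2 * (8 * ((Ji : ℝ) + 1) / ε)) = ε / 16 := by
          have : (Ji : ℝ) + 1 ≠ 0 := by positivity
          field_simp
          norm_num
        rw [h5]
        exact mul_le_mul_of_nonneg_right (by linarith) hNr.le
      · push Not at hb
        obtain ⟨a, ha⟩ := hb
        have h3 := hMA W Jn N (8 * ((Ji : ℝ) + 1) / ε) (fun n => (f n - En n) / 2) θ a hW hJn hN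
          (by positivity) (hgb En hEnb) (hcs Jn En hcelln) ha.le
        have h4 : ‖tw N (fun n => f n - En n) θ‖ ≤ ε / 4 * N := by
          have h5 : tw N (fun n => (f n - En n) / 2) θ = tw N (fun n => f n - En n) θ / 2 :=
            tw_half N (fun n => f n - En n) θ
          have h6 : ‖tw N (fun n => (f n - En n) / 2) θ‖ ≤
              2 * Real.pi * (8 * ((Ji : ℝ) + 1) / ε) * (1 / (Jn : ℝ) + 1 / N) * N := h3
          rw [h5, norm_div, Complex.norm_ofNat, div_le_iff₀ (by norm_num)] at h6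
          refine h6.trans ?_
          have h7 := mul_le_mul_of_nonneg_right h2 hNr.le
          linarith
        rw [tw_sub] at h4
        have h5 : ‖tw N (fun n => En n - Ei n) θ‖ ≤ ε / 8 * N := by
          refine (tw_le N _ θ).trans ?_
          have h6 := Finset.sum_mul_sq_le_sq_mul_sq (Finset.Icc (1 : ℤ) N) (fun _ => (1 : ℝ))
            (fun n => |En n - Ei n|)
          simp only [one_mul, one_pow, Finset.sum_const, Int.card_Icc, nsmul_eq_mul, mul_one,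
            sq_abs] at h6
          have h7 : (((N : ℤ) + 1 - 1).toNat : ℝ) = N := by simp
          rw [h7] at h6
          have h8 : (∑ n ∈ Finset.Icc (1 : ℤ) N, |En n - Ei n|) ^ 2 ≤ (ε / 8 * N) ^ 2 := by
            refine h6.trans ?_
            have h9 := mul_le_mul_of_nonneg_left hen hNr.le
            refine h9.trans (le_of_eq ?_)
            ring
          exact (pow_le_pow_iff_left₀ (Finset.sum_nonneg (fun _ _ => abs_nonneg _))
            (by positivity) two_ne_zero).1 h8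
        rw [tw_sub] at h5
        have h10 : tw N Ei θ = tw N f θ - (tw N f θ - tw N En θ) - (tw N En θ - tw N Ei θ) := by
          ring
        rw [h10]
        refine (norm_sub_le _ _).trans ?_
        have h11 := norm_sub_le (tw N f θ) (tw N f θ - tw N En θ)
        linarith
    have h12 : tw N (fun n => (f n - Ei n) / 2) θ = (tw N f θ - tw N Ei θ) / 2 := by
      rw [← tw_sub]
      exact tw_half N (fun n => f n - Ei n) θ
    rw [h12, norm_div, Complex.norm_ofNat, div_le_iff₀ (by norm_num)]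
    have h13 := norm_sub_le (tw N f θ) (tw N Ei θ)
    have h14 : 0 < ε * N := by positivity
    linarith
  · -- major arcs
    unfold Minor at hmin
    push Not at hmin
    obtain ⟨q, hq1, hq2, a, ha⟩ := hmin
    obtain ⟨w, hw⟩ := hdiv q hq1 hq2
    have hqr : (0 : ℝ) < q := by exact_mod_cast hq1
    have hq1r : (1 : ℝ) ≤ q := by exact_mod_cast hq1
    have hw0 : (0 : ℝ) ≤ w := Nat.cast_nonneg _
    have hWq : (W : ℝ) = q * w := by rw [hw]; push_cast; ring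
    have h3 : |(W : ℝ) * θ - ((a * w : ℤ) : ℝ)| ≤ Kf * W / N := by
      have h4 : (W : ℝ) * θ - ((a * w : ℤ) : ℝ) = w * ((q : ℝ) * θ - a) := by
        rw [hWq]; push_cast; ring
      rw [h4, abs_mul, abs_of_nonneg hw0, le_div_iff₀ hNr]
      calc (w : ℝ) * |(q : ℝ) * θ - a| * N = w * (N * |(q : ℝ) * θ - a|) := by ring
        _ ≤ w * Kf := mul_le_mul_of_nonneg_left ha.le hw0
        _ ≤ Kf * W := by
            rw [hWq]
            have h5 : (0 : ℝ) ≤ Kf * w := by positivity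
            nlinarith
    have h4 := hMA W Ji N Kf (fun n => (f n - Ei n) / 2) θ (a * w) hW hJi hN (Nat.cast_nonneg _)
      (hgb Ei hEib) (hcs Ji Ei hcell) h3
    have h5 : ‖tw N (fun n => (f n - Ei n) / 2) θ‖ ≤
        2 * Real.pi * Kf * (1 / (Ji : ℝ) + 1 / N) * N := h4
    exact h5.trans (mul_le_mul_of_nonneg_right h1 hNr.le)

/-- The norm of order two at a good scale. -/
theorem s2s_UU (hEN : T_EN) (hB2 : T_B2S) (hMA : T_MAS) (hMI : T_MIS) {l : ℕ} (h : Fin l → ℕ)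
    (ε : ℝ) (hε0 : 0 < ε) (W Kf N Ji Jn : ℕ) (hW : 0 < W)
    (hdiv : ∀ q, 1 ≤ q → q ≤ Kf → q ∣ W) (hN : 0 < N) (hJi : 0 < Ji) (hJn : 0 < Jn)
    (h1 : 2 * Real.pi * Kf * (1 / (Ji : ℝ) + 1 / N) ≤ ε)
    (h2 : 4 * Real.pi * (8 * ((Ji : ℝ) + 1) / ε) * (1 / (Jn : ℝ) + 1 / N) ≤ ε / 4)
    (hT1 : ∀ θ : ℝ, Minor Kf N θ → ‖Sg h N θ‖ ≤ ε / 8 * N)
    (hen : ∑ n ∈ Finset.Icc (1 : ℤ) N, (ce W Jn N (FF h 1) n - ce W Ji N (FF h 1) n) ^ 2 ≤
      (ε / 8) ^ 2 * N) :
    UU 2 N (fun n => ((gs h (ce W Ji N (FF h 1)) n : ℝ) : ℂ)) ≤ ε ^ 2 := by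
  have hNr : (0 : ℝ) < N := by exact_mod_cast hN
  obtain ⟨hEib, _, _, _⟩ := hEN W Ji N (FF h 1) hW hJi hN (fun n => abs_FF_le h 1 n)
  have h3 := hB2 (gs h (ce W Ji N (FF h 1))) N (ε * N) (by
    intro n
    unfold gs
    rw [abs_div, abs_of_pos (by norm_num : (0 : ℝ) < 2), div_le_one (by norm_num)]
    have h4 := abs_sub (FF h 1 n) (ce W Ji N (FF h 1) n)
    have h5 := abs_FF_le h 1 n
    have h6 := hEib n
    linarith)
    (s2s_tw hEN hMA hMI h ε hε0 W Kf N Ji Jn hW hdiv hN hJi hJn h1 h2 hT1 hen)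
  unfold UU
  rw [div_le_iff₀ (by positivity)]
  refine h3.trans (le_of_eq ?_)
  ring

/-- The energy increment. -/
theorem s2s_pigeon (hEN : T_EN) {l : ℕ} (h : Fin l → ℕ) (W N J₀ Lm T : ℕ) (c : ℝ) (hW : 0 < W)
    (hN : 0 < N) (hJ₀ : 0 < J₀) (hLm : 0 < Lm) (hT : 1 ≤ c * T) :
    ∃ i < T, ∑ n ∈ Finset.Icc (1 : ℤ) N, (ce W (J₀ * Lm ^ (i + 1)) N (FF h 1) n -
      ce W (J₀ * Lm ^ i) N (FF h 1) n) ^ 2 ≤ c * N := by
  have hNr : (0 : ℝ) < N := by exact_mod_cast hN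
  set e : ℕ → ℝ := fun i => ∑ n ∈ Finset.Icc (1 : ℤ) N, (ce W (J₀ * Lm ^ i) N (FF h 1) n) ^ 2
    with he
  have hJ : ∀ i, 0 < J₀ * Lm ^ i := fun i => by positivity
  have hinc : ∀ i, ∑ n ∈ Finset.Icc (1 : ℤ) N, (ce W (J₀ * Lm ^ (i + 1)) N (FF h 1) n -
      ce W (J₀ * Lm ^ i) N (FF h 1) n) ^ 2 = e (i + 1) - e i := by
    intro i
    obtain ⟨_, _, _, h4⟩ := hEN W (J₀ * Lm ^ i) N (FF h 1) hW (hJ i) hN
      (fun n => abs_FF_le h 1 n)
    exact h4 W (J₀ * Lm ^ (i + 1)) hW (hJ (i + 1)) dvd_rfl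
      (Nat.mul_dvd_mul_left _ (pow_dvd_pow _ (Nat.le_succ i)))
  by_contra hcon
  push Not at hcon
  have h1 : ∑ i ∈ Finset.range T, (e (i + 1) - e i) = e T - e 0 := Finset.sum_range_sub e T
  have h2 : e T ≤ N := by
    have h3 : ∀ n ∈ Finset.Icc (1 : ℤ) N, (ce W (J₀ * Lm ^ T) N (FF h 1) n) ^ 2 ≤ 1 := by
      intro n _
      obtain ⟨h5, _⟩ := hEN W (J₀ * Lm ^ T) N (FF h 1) hW (hJ T) hN
        (fun n => abs_FF_le h 1 n)
      rw [← sq_abs]
      exact pow_le_one₀ (abs_nonneg _) (h5 n)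
    refine (Finset.sum_le_sum h3).trans (le_of_eq ?_)
    rw [Finset.sum_const, Int.card_Icc, nsmul_eq_mul, mul_one]
    simp
  have h3 : 0 ≤ e 0 := Finset.sum_nonneg (fun _ _ => by positivity)
  have hT0 : T ≠ 0 := by
    rintro rfl
    norm_num at hT
  have h4 : (T : ℝ) * (c * N) < ∑ i ∈ Finset.range T, (e (i + 1) - e i) := by
    have h5 : ∑ _i ∈ Finset.range T, c * (N : ℝ) < ∑ i ∈ Finset.range T, (e (i + 1) - e i) := by
      apply Finset.sum_lt_sum_of_nonempty (Finset.nonempty_range_iff.2 hT0)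
      intro i hi
      rw [Finset.mem_range] at hi
      rw [← hinc i]
      exact hcon i hi
    rw [Finset.sum_const, Finset.card_range, nsmul_eq_mul] at h5
    exact h5
  have h5 : (N : ℝ) ≤ (T : ℝ) * (c * N) := by
    have := mul_le_mul_of_nonneg_right hT hNr.le
    linarith
  linarith

/-- The small scales are negligible. -/
theorem small_scales (ρ : ℝ) (hρ : 0 < ρ) (N₁ : ℕ) : ∃ K : ℕ, 0 < K ∧ ∀ x y : ℕ, 0 < x →
    K * x ≤ y → (N₁ : ℝ) ≤ ρ * Real.log ((y : ℝ) / x) := by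
  obtain ⟨K, hK⟩ := exists_nat_ge (Real.exp (N₁ / ρ))
  refine ⟨K + 1, Nat.succ_pos _, ?_⟩
  intro x y hx hxy
  have hxr : (0 : ℝ) < x := by exact_mod_cast hx
  have h1 : (((K + 1) * x : ℕ) : ℝ) ≤ y := by exact_mod_cast hxy
  push_cast at h1
  have h2 : Real.exp (N₁ / ρ) ≤ (y : ℝ) / x := by
    rw [le_div_iff₀ hxr]
    nlinarith
  have h3 : (N₁ : ℝ) / ρ ≤ Real.log ((y : ℝ) / x) := by
    rw [Real.le_log_iff_exp_le ((Real.exp_pos _).trans_le h2)]
    exact h2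
  rw [div_le_iff₀ hρ] at h3
  linarith

open Classical in
theorem sum_small (N₁ x y : ℕ) (hx : 0 < x) :
    ∑ N ∈ (Finset.Icc x y).filter (fun N => N < N₁), (1 / (N : ℝ)) ≤ N₁ := by
  have h1 : ∀ N ∈ (Finset.Icc x y).filter (fun N => N < N₁), (1 / (N : ℝ)) ≤ 1 := by
    intro N hN
    rw [Finset.mem_filter, Finset.mem_Icc] at hN
    have h2 : (1 : ℝ) ≤ N := by
      have : 1 ≤ N := by omega
      exact_mod_cast this
    rw [div_le_one (by linarith)]
    exact h2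
  refine (Finset.sum_le_sum h1).trans ?_
  rw [Finset.sum_const, nsmul_eq_mul, mul_one]
  have h3 : (Finset.Icc x y).filter (fun N => N < N₁) ⊆ Finset.range N₁ := by
    intro N hN
    rw [Finset.mem_filter] at hN
    exact Finset.mem_range.2 hN.2
  have h4 := Finset.card_le_card h3
  rw [Finset.card_range] at h4
  exact_mod_cast h4

theorem pf_S2S (hT1 : StatementT1) (hEN : T_EN) (hB2 : T_B2S) (hMA : T_MAS) (hMI : T_MIS) :
    T_S2S := by
  classical
  intro l h η ρ W J hη hρ hW hJ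
  set ε : ℝ := min 1 (Real.sqrt η) with hε
  have hε0 : 0 < ε := lt_min one_pos (Real.sqrt_pos.2 hη)
  have hε1 : ε ≤ 1 := min_le_left _ _
  have hεη : ε ^ 2 ≤ η := by
    have h1 : ε ≤ Real.sqrt η := min_le_right _ _
    calc ε ^ 2 ≤ Real.sqrt η ^ 2 := pow_le_pow_left₀ hε0.le h1 2
      _ = η := Real.sq_sqrt hη.le
  obtain ⟨Kf, hKf⟩ := hT1 l h (ε / 8) (ρ / 2) (by positivity) (by positivity)
  obtain ⟨T, hTn⟩ := exists_nat_ge (1 / (ε / 8) ^ 2)
  have hT : 1 ≤ (ε / 8) ^ 2 * T := by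
    rw [div_le_iff₀ (by positivity)] at hTn
    linarith
  have hπ := Real.pi_pos
  -- the parameters
  obtain ⟨Jb, hJb⟩ := exists_nat_ge (4 * Real.pi * Kf / ε + 1)
  obtain ⟨Lm, hLm⟩ := exists_nat_ge (512 * Real.pi / ε ^ 2 + 1)
  have hJb0 : 0 < Jb := by
    have : (0 : ℝ) < Jb := by
      refine lt_of_lt_of_le ?_ hJb
      positivity
    exact_mod_cast this
  have hLm0 : 0 < Lm := by
    have : (0 : ℝ) < Lm := by
      refine lt_of_lt_of_le ?_ hLm
      positivity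
    exact_mod_cast this
  set W0 : ℕ := W * Kf.factorial with hW0
  have hW00 : 0 < W0 := Nat.mul_pos hW (Nat.factorial_pos _)
  set J₀ : ℕ := J * Jb with hJ₀
  have hJ₀0 : 0 < J₀ := Nat.mul_pos hJ hJb0
  set JT : ℕ := J₀ * Lm ^ T with hJT
  have hJT0 : 0 < JT := by positivity
  obtain ⟨N₁, hN₁⟩ := exists_nat_ge (4 * Real.pi * Kf / ε + 256 * Real.pi * ((JT : ℝ) + 1) / ε ^ 2
    + 1)
  obtain ⟨Ks, hKs0, hKs⟩ := small_scales (ρ / 2) (by positivity) N₁
  refine ⟨W0, JT, max Kf Ks, hW00, hJT0, dvd_mul_right _ _,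
    (dvd_mul_right J Jb).trans (dvd_mul_right J₀ _), ?_⟩
  intro x y hx hxy
  have hxy1 : Kf * x ≤ y := (Nat.mul_le_mul_right x (le_max_left _ _)).trans hxy
  have hxy2 : Ks * x ≤ y := (Nat.mul_le_mul_right x (le_max_right _ _)).trans hxy
  have hb1 := hKf x y hx hxy1
  have hb2 := (sum_small N₁ x y hx).trans (hKs x y hx hxy2)
  set A := (Finset.Icc x y).filter
    (fun N : ℕ => ∃ θ : ℝ, Minor Kf N θ ∧ ε / 8 * N < ‖Sg h N θ‖) with hA
  set D := (Finset.Icc x y).filter (fun N => N < N₁) with hD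
  have hsub : (Finset.Icc x y).filter (fun N : ℕ => ¬ ∃ W₁ J₁ : ℕ, W ∣ W₁ ∧ W₁ ∣ W0 ∧ J ∣ J₁ ∧
        J₁ ∣ JT ∧ UU 2 N (fun n => ((gs h (ce W₁ J₁ N (FF h 1)) n : ℝ) : ℂ)) ≤ η) ⊆ A ∪ D := by
    intro N hN
    rw [Finset.mem_filter] at hN
    obtain ⟨hNxy, hbad⟩ := hN
    rw [Finset.mem_union]
    by_cases hND : N < N₁
    · right
      rw [hD, Finset.mem_filter]
      exact ⟨hNxy, hND⟩
    · left
      rw [hA, Finset.mem_filter]
      refine ⟨hNxy, ?_⟩
      by_contra hcon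
      push Not at hcon hND
      apply hbad
      have hN0 : 0 < N := by
        rw [Finset.mem_Icc] at hNxy
        omega
      have hNr : (0 : ℝ) < N := by exact_mod_cast hN0
      obtain ⟨i, hiT, hi⟩ := s2s_pigeon hEN h W0 N J₀ Lm T ((ε / 8) ^ 2) hW00 hN0 hJ₀0 hLm0 hT
      set Ji : ℕ := J₀ * Lm ^ i with hJi
      have hJi0 : 0 < Ji := by positivity
      have hJir : (0 : ℝ) < Ji := by exact_mod_cast hJi0
      have hJn : J₀ * Lm ^ (i + 1) = Ji * Lm := by rw [hJi]; ring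
      rw [hJn] at hi
      have hJnr : ((Ji * Lm : ℕ) : ℝ) = (Ji : ℝ) * Lm := by push_cast; rfl
      have hLmr : (0 : ℝ) < Lm := by exact_mod_cast hLm0
      have hJiT : Ji ∣ JT := Nat.mul_dvd_mul_left _ (pow_dvd_pow _ hiT.le)
      have hJiTr : (Ji : ℝ) ≤ JT := by exact_mod_cast Nat.le_of_dvd hJT0 hJiT
      have hJb2 : (Jb : ℝ) ≤ Ji := by
        have h1 : Jb ∣ Ji := (dvd_mul_left Jb J).trans (dvd_mul_right J₀ _)
        exact_mod_cast Nat.le_of_dvd hJi0 h1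
      have hNN : (N₁ : ℝ) ≤ N := by exact_mod_cast hND
      have hp1 : 0 ≤ 4 * Real.pi * Kf / ε := by positivity
      have hp2 : 0 ≤ 256 * Real.pi * ((JT : ℝ) + 1) / ε ^ 2 := by positivity
      have hJi1 : (1 : ℝ) ≤ Ji := by exact_mod_cast hJi0
      refine ⟨W0, Ji, dvd_mul_right _ _, dvd_rfl,
        ((dvd_mul_right J Jb).trans (dvd_mul_right J₀ _)), hJiT, ?_⟩
      refine (s2s_UU hEN hB2 hMA hMI h ε hε0 W0 Kf N Ji (Ji * Lm) hW00 ?_ hN0 hJi0
        (by positivity) ?_ ?_ hcon hi).trans hεη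
      · intro q hq1 hq2
        exact (Nat.dvd_factorial hq1 hq2).trans (dvd_mul_left _ _)
      · have h3 : 4 * Real.pi * Kf / ε ≤ Ji := by linarith
        have h4 : 4 * Real.pi * Kf / ε ≤ N := by linarith
        rw [div_le_iff₀ hε0] at h3 h4
        have h5 : 2 * Real.pi * Kf * (1 / (Ji : ℝ)) ≤ ε / 2 := by
          rw [mul_one_div, div_le_iff₀ hJir]
          linarith
        have h6 : 2 * Real.pi * Kf * (1 / (N : ℝ)) ≤ ε / 2 := by
          rw [mul_one_div, div_le_iff₀ hNr]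
          linarith
        rw [mul_add]
        linarith
      · have h3 : 512 * Real.pi / ε ^ 2 ≤ Lm := by linarith
        have h4 : 256 * Real.pi * ((Ji : ℝ) + 1) / ε ^ 2 ≤ N := by
          have h5 : 256 * Real.pi * ((Ji : ℝ) + 1) / ε ^ 2 ≤
              256 * Real.pi * ((JT : ℝ) + 1) / ε ^ 2 := by
            apply div_le_div_of_nonneg_right _ (by positivity)
            apply mul_le_mul_of_nonneg_left _ (by positivity)
            linarith
          linarith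
        rw [div_le_iff₀ (by positivity)] at h3 h4
        have h5 : 4 * Real.pi * (8 * ((Ji : ℝ) + 1) / ε) * (1 / ((Ji * Lm : ℕ) : ℝ)) ≤ ε / 8 := by
          rw [hJnr, mul_one_div, div_le_iff₀ (by positivity)]
          have h6 : 4 * Real.pi * (8 * ((Ji : ℝ) + 1) / ε) =
              32 * Real.pi * ((Ji : ℝ) + 1) / ε := by ring
          rw [h6, div_le_iff₀ hε0]
          have h7 : (Ji : ℝ) + 1 ≤ 2 * Ji := by linarith
          calc 32 * Real.pi * ((Ji : ℝ) + 1) ≤ 32 * Real.pi * (2 * Ji) :=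
                mul_le_mul_of_nonneg_left h7 (by positivity)
            _ = (512 * Real.pi) * Ji / 8 := by ring
            _ ≤ (Lm * ε ^ 2) * Ji / 8 := by
                apply div_le_div_of_nonneg_right _ (by norm_num)
                exact mul_le_mul_of_nonneg_right h3 hJir.le
            _ = ε / 8 * (Ji * Lm) * ε := by ring
        have h8 : 4 * Real.pi * (8 * ((Ji : ℝ) + 1) / ε) * (1 / (N : ℝ)) ≤ ε / 8 := by
          rw [mul_one_div, div_le_iff₀ hNr]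
          have h6 : 4 * Real.pi * (8 * ((Ji : ℝ) + 1) / ε) =
              32 * Real.pi * ((Ji : ℝ) + 1) / ε := by ring
          rw [h6, div_le_iff₀ hε0]
          calc 32 * Real.pi * ((Ji : ℝ) + 1) = (256 * Real.pi * ((Ji : ℝ) + 1)) / 8 := by ring
            _ ≤ (N * ε ^ 2) / 8 := by
                apply div_le_div_of_nonneg_right h4 (by norm_num)
            _ = ε / 8 * N * ε := by ring
        rw [mul_add]
        linarith
  have hnn : ∀ N : ℕ, (0 : ℝ) ≤ 1 / (N : ℝ) := fun N => by positivity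
  have h1 : ∑ N ∈ A ∪ D, (1 / (N : ℝ)) ≤ ∑ N ∈ A, (1 / (N : ℝ)) + ∑ N ∈ D, (1 / (N : ℝ)) := by
    have h2 := Finset.sum_union_inter (s₁ := A) (s₂ := D) (f := fun N : ℕ => (1 / (N : ℝ)))
    have h3 : 0 ≤ ∑ N ∈ A ∩ D, (1 / (N : ℝ)) := Finset.sum_nonneg (fun N _ => hnn N)
    linarith
  refine (Finset.sum_le_sum_of_subset_of_nonneg hsub (fun N _ _ => hnn N)).trans (h1.trans ?_)
  linarith

end Pool.Agent.H79.GS
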